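import Pool.Agent.helper57.MS.Spec2

/-!
# ms:BLK (helper31)
-/

set_option autoImplicit false

open Finset

namespace Pool.Agent.helper57.MS

open Pool.Agent.RRank Pool.Agent.helper26.IM

/-- the preimage of a set of blocks -/
def BLK_pre {d m : ℕ} (φ : Fin d → Fin m) (I : Finset (Fin m)) : Finset (Fin d) :=
  univ.filter (fun x => φ x ∈ I)

lemma BLK_mem_pre {d m : ℕ} (φ : Fin d → Fin m) (I : Finset (Fin m)) (x : Fin d) :
    x ∈ BLK_pre φ I ↔ φ x ∈ I := by
  simp [BLK_pre]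

lemma BLK_pre_disj {d m : ℕ} (φ : Fin d → Fin m) (P' : IndexPartition m)
    (I : Finset (Fin m)) (hI : I ∈ P'.parts) (J : Finset (Fin m)) (hJ : J ∈ P'.parts)
    (x : Fin d) (h1 : x ∈ BLK_pre φ I) (h2 : x ∈ BLK_pre φ J) : I = J := by
  rw [BLK_mem_pre] at h1 h2
  by_contra hne
  exact Finset.disjoint_left.1 (P'.disjoint hI hJ hne) h1 h2

lemma BLK_supIndep {d m : ℕ} (φ : Fin d → Fin m) (P' : IndexPartition m) :
    (P'.parts.image (BLK_pre φ)).SupIndep id := by
  apply Finset.SupIndep.image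
  rw [Finset.supIndep_iff_pairwiseDisjoint]
  intro I hI J hJ hne
  show Disjoint (BLK_pre φ I) (BLK_pre φ J)
  rw [Finset.disjoint_left]
  intro x h1 h2
  exact hne (BLK_pre_disj φ P' I hI J hJ x h1 h2)

lemma BLK_sup {d m : ℕ} (φ : Fin d → Fin m) (P' : IndexPartition m) :
    (P'.parts.image (BLK_pre φ)).sup id = univ := by
  apply Finset.eq_univ_of_forall
  intro x
  obtain ⟨I, hI, hx⟩ := P'.exists_mem (Finset.mem_univ (φ x))
  rw [Finset.mem_sup]
  exact ⟨BLK_pre φ I, Finset.mem_image_of_mem _ hI, (BLK_mem_pre φ I x).2 hx⟩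

/-- the pulled back partition -/
def BLK_P {d m : ℕ} (φ : Fin d → Fin m) (P' : IndexPartition m) : IndexPartition d :=
  Finpartition.ofErase (P'.parts.image (BLK_pre φ)) (BLK_supIndep φ P') (BLK_sup φ P')

lemma BLK_P_parts {d m : ℕ} (φ : Fin d → Fin m) (P' : IndexPartition m) :
    (BLK_P φ P').parts = (P'.parts.image (BLK_pre φ)).erase ∅ := rfl

lemma BLK_up {d m : ℕ} (hd : 0 < d) (φ : Fin d → Fin m) (R' : Set (IndexPartition m))
    (K : Type) [Field K] (Q : Fin d → Type)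
    (t : ((β : Fin m) → ((α : {α // φ α = β}) → Q α.1)) → K) (ht : RankLEOne R' t) :
    RankLEOne (pull φ R') (fun x : (α : Fin d) → Q α => t (fun β α => x α.1)) := by
  classical
  obtain ⟨P', hP', b, hb, htb⟩ := rankLEOne_iff.1 ht
  have hmem : BLK_P φ P' ∈ pull φ R' := ⟨P', hP', rfl⟩
  have hne : ∀ P ∈ pull φ R', P.parts.Nonempty := by
    intro P _
    obtain ⟨I, hI, _⟩ := P.exists_mem (Finset.mem_univ (⟨0, hd⟩ : Fin d))
    exact ⟨I, hI⟩
  set b' : Finset (Fin d) → ((α : Fin d) → Q α) → K := fun J x =>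
    ∏ I ∈ P'.parts.filter (fun I => BLK_pre φ I = J), b I (fun β α => x α.1) with hb'
  have hdep : ∀ J : Finset (Fin d), DependsOn (b' J) (J : Set (Fin d)) := by
    intro J x y hxy
    refine Finset.prod_congr rfl fun I hI => ?_
    rw [Finset.mem_filter] at hI
    apply hb I hI.1
    intro β hβ
    funext α
    apply hxy
    rw [← hI.2, Finset.mem_coe, BLK_mem_pre, α.2]
    exact hβ
  have hprod : ∀ x : (α : Fin d) → Q α,
      t (fun β α => x α.1) = ∏ J ∈ P'.parts.image (BLK_pre φ), b' J x := by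
    intro x
    rw [htb]
    exact (Finset.prod_fiberwise_of_maps_to (fun I hI => Finset.mem_image_of_mem _ hI) _).symm
  by_cases hQ : Nonempty ((α : Fin d) → Q α)
  · obtain ⟨x₀⟩ := hQ
    by_cases he : (∅ : Finset (Fin d)) ∈ P'.parts.image (BLK_pre φ)
    · have h1 : RankLEOne (pull φ R')
          (fun x : (α : Fin d) → Q α => ∏ J ∈ (BLK_P φ P').parts, b' J x) :=
        rankLEOne_iff.2 ⟨BLK_P φ P', hmem, b', fun J _ => hdep J, fun x => rfl⟩
      have h2 := h1.smul hne (b' ∅ x₀)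
      have h3 : (fun x : (α : Fin d) → Q α => t (fun β α => x α.1)) =
          fun x => b' ∅ x₀ * ∏ J ∈ (BLK_P φ P').parts, b' J x := by
        funext x
        rw [hprod, ← Finset.mul_prod_erase _ _ he, BLK_P_parts]
        congr 1
        apply hdep ∅
        intro α hα
        simp at hα
      rw [h3]
      exact h2
    · refine rankLEOne_iff.2 ⟨BLK_P φ P', hmem, b', fun J _ => hdep J, fun x => ?_⟩
      rw [hprod, BLK_P_parts, Finset.erase_eq_of_notMem he]
  · exact rankLEOne_iff.2 ⟨BLK_P φ P', hmem, b', fun J _ => hdep J, fun x => (hQ ⟨x⟩).elim⟩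

lemma BLK_down {d m : ℕ} (φ : Fin d → Fin m) (R' : Set (IndexPartition m))
    (K : Type) [Field K] (S : Fin d → Type) (S' : Fin m → Type)
    (z : ((β : Fin m) → S' β) → ((α : Fin d) → S α))
    (hz : ∀ (α : Fin d) (y y' : (β : Fin m) → S' β), y (φ α) = y' (φ α) → z y α = z y' α)
    (t : ((α : Fin d) → S α) → K) (ht : RankLEOne (pull φ R') t) :
    RankLEOne R' (fun y => t (z y)) := by
  classical
  obtain ⟨P, ⟨P', hP', hparts⟩, b, hb, htb⟩ := rankLEOne_iff.1 ht
  have hparts' : P.parts = (P'.parts.image (BLK_pre φ)).erase ∅ := hparts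
  refine rankLEOne_iff.2 ⟨P', hP', fun I y =>
    if BLK_pre φ I = ∅ then 1 else b (BLK_pre φ I) (z y), ?_, ?_⟩
  · intro I hI y y' hy
    dsimp only
    by_cases h : BLK_pre φ I = ∅
    · rw [if_pos h, if_pos h]
    · rw [if_neg h, if_neg h]
      have hIm : BLK_pre φ I ∈ P.parts := by
        rw [hparts', Finset.mem_erase]
        exact ⟨h, Finset.mem_image_of_mem _ hI⟩
      apply hb _ hIm
      intro α hα
      apply hz
      apply hy
      rw [Finset.mem_coe, BLK_mem_pre] at hα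
      exact hα
  · intro y
    dsimp only
    rw [htb, hparts']
    have h1 : (P'.parts.image (BLK_pre φ)).erase ∅ =
        (P'.parts.filter (fun I => ¬ BLK_pre φ I = ∅)).image (BLK_pre φ) := by
      ext J
      simp only [Finset.mem_erase, Finset.mem_image, Finset.mem_filter]
      constructor
      · rintro ⟨h, I, hI, rfl⟩
        exact ⟨I, ⟨hI, h⟩, rfl⟩
      · rintro ⟨I, ⟨hI, h⟩, rfl⟩
        exact ⟨h, I, hI, rfl⟩
    rw [h1, Finset.prod_image]
    · rw [Finset.prod_filter]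
      refine Finset.prod_congr rfl fun I _ => ?_
      by_cases h : BLK_pre φ I = ∅
      · rw [if_pos h, if_neg (not_not.2 h)]
      · rw [if_neg h, if_pos h]
    · intro I hI J hJ hIJ
      rw [Finset.mem_coe, Finset.mem_filter] at hI hJ
      obtain ⟨x, hx⟩ := Finset.nonempty_iff_ne_empty.2 hI.2
      exact BLK_pre_disj φ P' I hI.1 J hJ.1 x hx (hIJ ▸ hx)

theorem BLK : BLK_stmt := by
  classical
  intro d m hd φ 𝓚 R' hR' l
  obtain ⟨G, hG⟩ := hR' l
  refine ⟨G, ?_⟩
  intro K iK hK Q hQ T hT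
  have hfin : ∀ β : Fin m, Finite ((α : {α // φ α = β}) → Q α.1) := fun β => inferInstance
  set T' : ((β : Fin m) → ((α : {α // φ α = β}) → Q α.1)) → K :=
    fun y => T (fun α => y (φ α) ⟨α, rfl⟩) with hT'
  have hrank : (G : ℕ∞) ≤ rank R' T' := by
    by_contra hlt
    rw [not_le] at hlt
    obtain ⟨r, hr, t, ht, hsum⟩ := exists_sumOf_of_rank_lt hlt
    apply not_sumOf_of_le_rank hT hr
    refine ⟨fun i x => t i (fun β α => x α.1), fun i => BLK_up hd φ R' K Q (t i) (ht i),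
      fun x => ?_⟩
    rw [← hsum]
  obtain ⟨X', hX', hl⟩ := hG K iK hK (fun β => (α : {α // φ α = β}) → Q α.1) T' hrank
  refine ⟨fun α => (X' (φ α)).image (fun y => y ⟨α, rfl⟩),
    fun α => Finset.card_image_le.trans (hX' (φ α)), ?_⟩
  by_contra hlt
  rw [not_le] at hlt
  obtain ⟨r, hr, t, ht, hsum⟩ := exists_sumOf_of_rank_lt hlt
  apply not_sumOf_of_le_rank hl hr
  set z : ((β : Fin m) → X' β) →
      ((α : Fin d) → ((X' (φ α)).image (fun y => y ⟨α, rfl⟩) : Finset (Q α))) :=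
    fun y α => ⟨(y (φ α)).1 ⟨α, rfl⟩, Finset.mem_image_of_mem _ (y (φ α)).2⟩ with hzdef
  refine ⟨fun i y => t i (z y), fun i => BLK_down φ R' K _ _ z ?_ (t i) (ht i), fun y => ?_⟩
  · intro α y y' h
    simp only [hzdef, h]
  · rw [← hsum]
    rfl

end Pool.Agent.helper57.MS
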