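import Pool.Agent.helper75.MS.Defs

/-! # MS project, module M4: arithmetic of the values `0, A, B` -/

namespace Pool.Agent.helper75.MS

open Finset

/-- the data extracted from a three-valued Weil sum with values `0 , A , B` (`A > 0 > B`) -/
structure Vals (p n : ℕ) (A B : ℤ) (NA NB V1 : ℕ) : Prop where
  prime : p.Prime
  p3 : 3 < p
  n0 : 0 < n
  A0 : 0 < A
  B0 : B < 0
  NA1 : 1 ≤ NA
  NB1 : 1 ≤ NB
  V1p : p ≤ V1
  m1 : (NA * A + NB * B : ℤ) = (p : ℤ) ^ n
  m2 : (NA * A ^ 2 + NB * B ^ 2 : ℤ) = (p : ℤ) ^ (2 * n)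
  m3 : (p : ℤ) ^ n * V1 = (A + B) * (p : ℤ) ^ n - A * B
  /-- the numbers `V d l` for `l ≠ 0, 1` -/
  m4 : ∃ (ι : Type) (s : Finset ι) (v : ι → ℕ),
    (∀ i ∈ s, A * (A - B) ∣ (p : ℤ) ^ (2 * n) * v i ∧ B * (B - A) ∣ (p : ℤ) ^ (2 * n) * v i) ∧
    (∑ i ∈ s, (v i : ℤ) = (p : ℤ) ^ n - V1) ∧
    (p : ℤ) ^ (2 * n) * ((V1 : ℤ) ^ 2 + ∑ i ∈ s, (v i : ℤ) ^ 2) = NA * A ^ 4 + NB * B ^ 4

theorem m4_div_bound {ι : Type} (s : Finset ι) (v : ι → ℕ) (D : ℕ) (S R : ℤ) (hS : 0 < S)
    (h1 : ∑ i ∈ s, (v i : ℤ) = S) (h2 : ∑ i ∈ s, (v i : ℤ) ^ 2 = R * S)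
    (hD : ∀ i ∈ s, D ∣ v i) : (D : ℤ) ≤ R := by
  have h3 : (D : ℤ) * S ≤ R * S := by
    rw [← h2, ← h1, Finset.mul_sum]
    apply Finset.sum_le_sum
    intro i hi
    obtain ⟨k, hk⟩ := hD i hi
    rw [hk]
    push_cast
    have hk2 : (k : ℤ) ≤ (k : ℤ) ^ 2 := by
      have : (k : ℕ) ≤ k ^ 2 := Nat.le_self_pow (by norm_num) k
      exact_mod_cast this
    nlinarith [sq_nonneg (D : ℤ)]
  exact le_of_mul_le_mul_right h3 hS

variable {p n : ℕ} {A B : ℤ} {NA NB V1 : ℕ}

theorem Vals.e1 (h : Vals p n A B NA NB V1) :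
    (NA : ℤ) * A * (A - B) = (p : ℤ) ^ n * ((p : ℤ) ^ n - B) := by
  have m1 := h.m1
  have m2 := h.m2
  have e : (p : ℤ) ^ (2 * n) = (p : ℤ) ^ n * (p : ℤ) ^ n := by rw [two_mul, pow_add]
  rw [e] at m2
  linear_combination m2 - B * m1

theorem Vals.e2 (h : Vals p n A B NA NB V1) :
    (NB : ℤ) * B * (B - A) = (p : ℤ) ^ n * ((p : ℤ) ^ n - A) := by
  have m1 := h.m1
  have m2 := h.m2
  have e : (p : ℤ) ^ (2 * n) = (p : ℤ) ^ n * (p : ℤ) ^ n := by rw [two_mul, pow_add]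
  rw [e] at m2
  linear_combination m2 - A * m1

theorem Vals.q0 (h : Vals p n A B NA NB V1) : (0 : ℤ) < (p : ℤ) ^ n := by
  have := h.prime.pos
  positivity

theorem Vals.Alt (h : Vals p n A B NA NB V1) : A < (p : ℤ) ^ n := by
  have e2 := h.e2
  have hA := h.A0
  have hB := h.B0
  have hN : (1 : ℤ) ≤ NB := by exact_mod_cast h.NB1
  have hq := h.q0
  have h1 : 0 < (NB : ℤ) * B * (B - A) := by
    have : 0 < B * (B - A) := by nlinarith
    rw [mul_assoc]; positivity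
  rw [e2] at h1
  have := (mul_pos_iff_of_pos_left hq).1 h1
  linarith

theorem Vals.Blt (h : Vals p n A B NA NB V1) : - B < (p : ℤ) ^ n := by
  have hA := h.A0
  have hB := h.B0
  have hN : (1 : ℤ) ≤ NB := by exact_mod_cast h.NB1
  have hN' : (1 : ℤ) ≤ NA := by exact_mod_cast h.NA1
  have hq := h.q0
  have m2 := h.m2
  have e : (p : ℤ) ^ (2 * n) = (p : ℤ) ^ n * (p : ℤ) ^ n := by rw [two_mul, pow_add]
  rw [e] at m2
  have h1 : B ^ 2 ≤ NB * B ^ 2 := by nlinarith [sq_nonneg B]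
  have h2 : 0 < (NA : ℤ) * A ^ 2 := by positivity
  by_contra hc
  push Not at hc
  nlinarith

theorem Vals.core (h : Vals p n A B NA NB V1) : ∃ α β a b : ℕ,
    A = (p : ℤ) ^ α * a ∧ B = -((p : ℤ) ^ β * b) ∧ 0 < a ∧ 0 < b ∧ ¬ p ∣ a ∧ ¬ p ∣ b ∧
    α < n ∧ β < n ∧ ((α < β ∧ n < 2 * α) ∨ (β < α ∧ n < 2 * β) ∨
      (α = β ∧ n ≤ 2 * α ∧ ∃ s E : ℕ, a + b = p ^ s * E ∧ ¬ p ∣ E ∧ E * p ^ n ≤ p ^ (2 * α))) := by
  have hp := h.prime
  have hp1 : 1 < p := hp.one_lt
  have hA := h.A0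
  have hB := h.B0
  have hq := h.q0
  have hAlt := h.Alt
  have hBlt := h.Blt
  obtain ⟨α, a, ha, hAa⟩ := Nat.exists_eq_pow_mul_and_not_dvd
    (n := A.toNat) (by omega) p hp.ne_one
  obtain ⟨β, b, hb, hBb⟩ := Nat.exists_eq_pow_mul_and_not_dvd
    (n := (-B).toNat) (by omega) p hp.ne_one
  have hA' : A = (p : ℤ) ^ α * a := by
    have : (A.toNat : ℤ) = A := Int.toNat_of_nonneg hA.le
    rw [← this, hAa]; push_cast; ring
  have hB' : B = -((p : ℤ) ^ β * b) := by
    have : ((-B).toNat : ℤ) = -B := Int.toNat_of_nonneg (by linarith)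
    have h2 : -B = (p : ℤ) ^ β * b := by rw [← this, hBb]; push_cast; ring
    linarith
  have ha0 : 0 < a := Nat.pos_of_ne_zero (fun h0 => ha (by simp [h0]))
  have hb0 : 0 < b := Nat.pos_of_ne_zero (fun h0 => hb (by simp [h0]))
  have hαn : α < n := by
    have h1 : (p : ℤ) ^ α < (p : ℤ) ^ n := by
      calc (p : ℤ) ^ α ≤ (p : ℤ) ^ α * a := by
            have : (1 : ℤ) ≤ a := by exact_mod_cast ha0
            have h3 : (0 : ℤ) < (p : ℤ) ^ α := by positivity
            nlinarith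
        _ < _ := by rw [← hA']; exact hAlt
    have h2 : p ^ α < p ^ n := by exact_mod_cast h1
    exact (Nat.pow_lt_pow_iff_right hp1).1 h2
  have hβn : β < n := by
    have h1 : (p : ℤ) ^ β < (p : ℤ) ^ n := by
      calc (p : ℤ) ^ β ≤ (p : ℤ) ^ β * b := by
            have : (1 : ℤ) ≤ b := by exact_mod_cast hb0
            have h3 : (0 : ℤ) < (p : ℤ) ^ β := by positivity
            nlinarith
        _ < _ := by linarith
    have h2 : p ^ β < p ^ n := by exact_mod_cast h1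
    exact (Nat.pow_lt_pow_iff_right hp1).1 h2
  -- coprimality
  have hcop : Nat.Coprime a b := by
    apply Nat.coprime_of_dvd
    intro l hl hla hlb
    have hlp : l ≠ p := by rintro rfl; exact ha hla
    have hlA : (l : ℤ) ∣ A := by
      rw [hA']; exact Dvd.dvd.mul_left (by exact_mod_cast hla) _
    have hlB : (l : ℤ) ∣ B := by
      rw [hB']; exact (Dvd.dvd.mul_left (by exact_mod_cast hlb) _).neg_right
    have h1 : (l : ℤ) ∣ (p : ℤ) ^ n * ((p : ℤ) ^ n - B) := by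
      rw [← h.e1]
      exact Dvd.dvd.mul_right (Dvd.dvd.mul_left hlA _) _
    have hlq : IsCoprime (l : ℤ) ((p : ℤ) ^ n) := by
      apply IsCoprime.pow_right
      rw [Nat.isCoprime_iff_coprime]
      exact (Nat.coprime_primes hl hp).2 hlp
    have h2 := hlq.dvd_of_dvd_mul_left h1
    have h3 : (l : ℤ) ∣ (p : ℤ) ^ n := by
      have := dvd_add h2 hlB
      simpa using this
    have h4 : IsUnit (l : ℤ) := hlq.isUnit_of_dvd' dvd_rfl h3
    rw [Int.isUnit_iff] at h4
    have := hl.one_lt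
    omega
  -- the fourth moment
  obtain ⟨ι, s, v, hv1, hv2, hv3⟩ := h.m4
  have e : (p : ℤ) ^ (2 * n) = (p : ℤ) ^ n * (p : ℤ) ^ n := by rw [two_mul, pow_add]
  have m1 := h.m1
  have m2 := h.m2
  have m3 := h.m3
  have hqne : (p : ℤ) ^ n ≠ 0 := hq.ne'
  set q : ℤ := (p : ℤ) ^ n with hqdef
  have hV : 0 < q - (V1 : ℤ) := by
    have h1 : q * (q - V1) = (q - A) * (q - B) := by linear_combination -m3
    have h2 : 0 < (q - A) * (q - B) := mul_pos (by linarith) (by linarith)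
    rw [← h1] at h2
    exact (mul_pos_iff_of_pos_left hq).1 h2
  have hS2 : ∑ i ∈ s, (v i : ℤ) ^ 2 = (V1 - A - B) * (q - V1) := by
    have h1 : (q * q) * (∑ i ∈ s, (v i : ℤ) ^ 2) = (q * q) * ((V1 - A - B) * (q - V1)) := by
      rw [e] at hv3 m2
      linear_combination hv3 + ((A + B) ^ 2 - A * B) * m2 - (A + B) * A * B * m1 -
        (q * q + (A + B) * q) * m3
    exact mul_left_cancel₀ (mul_ne_zero hqne hqne) h1
  have hR : (V1 - A - B) * q = (p : ℤ) ^ (α + β) * (a * b) := by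
    have : (V1 - A - B) * q = -(A * B) := by linear_combination m3
    rw [this, hA', hB', pow_add]; ring
  -- the key bound
  have key : ∀ γ E : ℕ, 0 < E → ¬ p ∣ E → A - B = (p : ℤ) ^ γ * E → E * p ^ n ≤ p ^ (α + β) := by
    intro γ E hE0 hE hAB
    have cop : ∀ m : ℕ, ¬ p ∣ m → ∀ k : ℕ, IsCoprime (m : ℤ) ((p : ℤ) ^ k) := by
      intro m hm k
      apply IsCoprime.pow_right
      rw [Nat.isCoprime_iff_coprime]
      exact ((Nat.Prime.coprime_iff_not_dvd hp).2 hm).symm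
    have haE : ∀ i ∈ s, a * E ∣ v i := by
      intro i hi
      have h1 := (hv1 i hi).1
      have h2 : ((a * E : ℕ) : ℤ) ∣ (p : ℤ) ^ (2 * n) * v i := by
        refine dvd_trans ?_ h1
        rw [hAB, hA']
        exact ⟨(p : ℤ) ^ α * (p : ℤ) ^ γ, by push_cast; ring⟩
      have h3 := (cop (a * E) (by rw [hp.dvd_mul]; tauto) (2 * n)).dvd_of_dvd_mul_left h2
      exact_mod_cast h3
    have hbE : ∀ i ∈ s, b * E ∣ v i := by
      intro i hi
      have h1 := (hv1 i hi).2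
      have h2 : ((b * E : ℕ) : ℤ) ∣ (p : ℤ) ^ (2 * n) * v i := by
        refine dvd_trans ?_ h1
        have : B - A = -((p : ℤ) ^ γ * E) := by rw [← hAB]; ring
        rw [this, hB']
        exact ⟨(p : ℤ) ^ β * (p : ℤ) ^ γ, by push_cast; ring⟩
      have h3 := (cop (b * E) (by rw [hp.dvd_mul]; tauto) (2 * n)).dvd_of_dvd_mul_left h2
      exact_mod_cast h3
    have habE : ∀ i ∈ s, a * b * E ∣ v i := by
      intro i hi
      obtain ⟨k, hk⟩ := haE i hi
      obtain ⟨k', hk'⟩ := hbE i hi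
      have h1 : a * k = b * k' := by
        have : a * k * E = b * k' * E := by
          rw [mul_right_comm, ← hk, hk', mul_right_comm]
        exact Nat.eq_of_mul_eq_mul_right hE0 this
      have h2 : b ∣ k := by
        have : b ∣ a * k := ⟨k', h1⟩
        exact (Nat.Coprime.dvd_of_dvd_mul_left hcop.symm this)
      obtain ⟨c, hc⟩ := h2
      exact ⟨c, by rw [hk, hc]; ring⟩
    have hb := m4_div_bound s v (a * b * E) (q - V1) (V1 - A - B) hV hv2 hS2 habE
    have h5 : ((a * b * E : ℕ) : ℤ) * q ≤ (p : ℤ) ^ (α + β) * (a * b) := by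
      rw [← hR]; exact mul_le_mul_of_nonneg_right hb hq.le
    have h6 : ((a * b : ℕ) : ℤ) * ((E * p ^ n : ℕ) : ℤ) ≤ ((a * b : ℕ) : ℤ) * ((p ^ (α + β) : ℕ) : ℤ) := by
      push_cast
      push_cast at h5
      rw [hqdef] at h5
      linarith
    have h7 : (0 : ℤ) < ((a * b : ℕ) : ℤ) := by exact_mod_cast Nat.mul_pos ha0 hb0
    exact_mod_cast le_of_mul_le_mul_left h6 h7
  refine ⟨α, β, a, b, hA', hB', ha0, hb0, ha, hb, hαn, hβn, ?_⟩
  rcases lt_trichotomy α β with hlt | heq | hgt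
  · left
    refine ⟨hlt, ?_⟩
    have hβ : β = α + (β - α) := by omega
    have hpd : p ∣ p ^ (β - α) * b := Dvd.dvd.mul_right (dvd_pow_self p (by omega)) b
    have h1 := key α (a + p ^ (β - α) * b) (by omega)
      (fun hd => ha ((Nat.dvd_add_left hpd).1 hd))
      (by
        rw [hA', hB']
        conv_lhs => rw [hβ]
        rw [pow_add]; push_cast; ring)
    have h2 : p ^ (β - α + n) < p ^ (α + β) := by
      calc p ^ (β - α + n) = p ^ (β - α) * p ^ n := pow_add _ _ _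
        _ < (a + p ^ (β - α) * b) * p ^ n := by
            apply Nat.mul_lt_mul_of_pos_right _ (by positivity)
            have : p ^ (β - α) * 1 ≤ p ^ (β - α) * b := Nat.mul_le_mul_left _ hb0
            omega
        _ ≤ _ := h1
    have h3 := (Nat.pow_lt_pow_iff_right hp1).1 h2
    omega
  · right; right
    subst heq
    obtain ⟨t, E, hE, hab⟩ := Nat.exists_eq_pow_mul_and_not_dvd
      (n := a + b) (by omega) p hp.ne_one
    have hE0 : 0 < E := Nat.pos_of_ne_zero (fun h0 => hE (by simp [h0]))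
    have h1 := key (α + t) E hE0 hE
      (by
        rw [hA', hB', pow_add]
        have : ((a : ℤ) + b) = (p : ℤ) ^ t * E := by exact_mod_cast hab
        linear_combination (p : ℤ) ^ α * this)
    rw [← two_mul] at h1
    refine ⟨rfl, ?_, t, E, hab, hE, h1⟩
    have h2 : p ^ n ≤ p ^ (2 * α) := le_trans (Nat.le_mul_of_pos_left _ hE0) h1
    exact (Nat.pow_le_pow_iff_right hp1).1 h2
  · right; left
    refine ⟨hgt, ?_⟩
    have hα : α = β + (α - β) := by omega
    have hpd : p ∣ p ^ (α - β) * a := Dvd.dvd.mul_right (dvd_pow_self p (by omega)) a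
    have h1 := key β (p ^ (α - β) * a + b) (by omega)
      (fun hd => hb ((Nat.dvd_add_right hpd).1 hd))
      (by
        rw [hA', hB']
        conv_lhs => rw [hα]
        rw [pow_add]; push_cast; ring)
    have h2 : p ^ (α - β + n) < p ^ (α + β) := by
      calc p ^ (α - β + n) = p ^ (α - β) * p ^ n := pow_add _ _ _
        _ < (p ^ (α - β) * a + b) * p ^ n := by
            apply Nat.mul_lt_mul_of_pos_right _ (by positivity)
            have : p ^ (α - β) * 1 ≤ p ^ (α - β) * a := Nat.mul_le_mul_left _ ha0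
            omega
        _ ≤ _ := h1
    have h3 := (Nat.pow_lt_pow_iff_right hp1).1 h2
    omega

/-- M4a -/
theorem Vals.odd (h : Vals p n A B NA NB V1) (ho : Odd n) :
    (p : ℤ) ^ ((n + 1) / 2) ∣ A ∧ (p : ℤ) ^ ((n + 1) / 2) ∣ B := by
  obtain ⟨α, β, a, b, hA, hB, -, -, -, -, -, -, hc⟩ := h.core
  obtain ⟨k, hk⟩ := ho
  have h1 : (n + 1) / 2 ≤ α ∧ (n + 1) / 2 ≤ β := by
    rcases hc with ⟨h1, h2⟩ | ⟨h1, h2⟩ | ⟨h1, h2, -⟩ <;> omega
  constructor
  · rw [hA]; exact Dvd.dvd.mul_right (pow_dvd_pow _ h1.1) _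
  · rw [hB]; exact (Dvd.dvd.mul_right (pow_dvd_pow _ h1.2) _).neg_right

/-- M4b -/
theorem Vals.two (h : Vals p 2 A B NA NB V1) : False := by
  obtain ⟨α, β, a, b, hA, hB, ha0, hb0, ha, hb, hαn, hβn, hc⟩ := h.core
  have hp := h.prime
  have hp3 := h.p3
  have hp5 : 5 ≤ p := by
    have h4 : p ≠ 4 := by rintro rfl; exact absurd hp (by norm_num)
    omega
  rcases hc with ⟨h1, h2⟩ | ⟨h1, h2⟩ | ⟨h1, h2, s, E, hab, hE, hle⟩
  · omega
  · omega
  have hα : α = 1 := by omega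
  have hβ : β = 1 := by omega
  subst hα
  subst hβ
  have hE1 : E = 1 := by
    have hE0 : E ≠ 0 := fun h0 => hE (by simp [h0])
    have : E * p ^ 2 ≤ 1 * p ^ 2 := by simpa using hle
    have := Nat.le_of_mul_le_mul_right this (by positivity)
    omega
  subst hE1
  rw [mul_one] at hab
  have hpZ : (5 : ℤ) ≤ p := by exact_mod_cast hp5
  have halt : (a : ℤ) < p := by
    have h3 := h.Alt
    rw [hA, pow_one, sq] at h3
    exact lt_of_mul_lt_mul_left h3 (by linarith)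
  have hblt : (b : ℤ) < p := by
    have h3 := h.Blt
    rw [hB, pow_one, sq, neg_neg] at h3
    exact lt_of_mul_lt_mul_left h3 (by linarith)
  have hs : s = 1 := by
    have h3 : p ^ s < p ^ 2 := by
      rw [← hab, sq]
      have : p * 2 ≤ p * p := Nat.mul_le_mul_left _ (by omega)
      omega
    have h4 := (Nat.pow_lt_pow_iff_right hp.one_lt).1 h3
    have h5 : s ≠ 0 := by
      rintro rfl
      rw [pow_zero] at hab
      omega
    omega
  subst hs
  rw [pow_one] at hab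
  have habZ : (a : ℤ) + b = p := by exact_mod_cast hab
  have e1 := h.e1
  rw [hA, hB] at e1
  have hp0 : (p : ℤ) ≠ 0 := by positivity
  have e1' : (NA : ℤ) * a = 2 * p - a := by
    have h3 : (p : ℤ) ^ 3 * ((NA : ℤ) * a) = (p : ℤ) ^ 3 * (2 * p - a) := by
      have : (b : ℤ) = p - a := by linarith
      rw [this] at e1
      linear_combination e1
    exact mul_left_cancel₀ (pow_ne_zero 3 hp0) h3
  have hdvd : a ∣ 2 * p := by
    have : (a : ℤ) ∣ ((2 * p : ℕ) : ℤ) := ⟨NA + 1, by push_cast; linear_combination -e1'⟩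
    exact_mod_cast this
  have hd2 : a ∣ 2 := by
    have hc : Nat.Coprime a p := ((Nat.Prime.coprime_iff_not_dvd hp).2 ha).symm
    exact hc.dvd_of_dvd_mul_right hdvd
  have ha2 : a ≤ 2 := Nat.le_of_dvd (by norm_num) hd2
  have hV : (V1 : ℤ) = p * (a - b) + a * b := by
    have m3 := h.m3
    rw [hA, hB] at m3
    have h3 : (p : ℤ) ^ 2 * V1 = (p : ℤ) ^ 2 * (p * (a - b) + a * b) := by
      linear_combination m3
    exact mul_left_cancel₀ (pow_ne_zero 2 hp0) h3
  have hV1 : (p : ℤ) ≤ V1 := by exact_mod_cast h.V1p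
  have hbZ : (b : ℤ) = p - a := by linarith
  rw [hV, hbZ] at hV1
  interval_cases a
  · push_cast at hV1
    nlinarith
  · push_cast at hV1
    nlinarith

/-- M4c -/
theorem Vals.four (h : Vals p 4 A B NA NB V1) :
    ((p : ℤ) ^ 3 ∣ A ∧ (p : ℤ) ^ 3 ∣ B) ∨
    (2 * A = (p : ℤ) ^ 2 * (p + 1) ∧ 2 * B = - (p : ℤ) ^ 2 * (p - 1) ∧ NA + NB = 4 * p ^ 2) := by
  obtain ⟨α, β, a, b, hA, hB, ha0, hb0, ha, hb, hαn, hβn, hc⟩ := h.core
  have hp := h.prime
  have hp3 := h.p3
  have hp5 : 5 ≤ p := by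
    have h4 : p ≠ 4 := by rintro rfl; exact absurd hp (by norm_num)
    omega
  rcases hc with ⟨h1, h2⟩ | ⟨h1, h2⟩ | ⟨h1, h2, s, E, hab, hE, hle⟩
  · omega
  · omega
  have hα : α = 2 ∨ α = 3 := by omega
  rcases hα with hα | hα
  swap
  · left
    subst hα
    subst h1
    constructor
    · rw [hA]; exact Dvd.intro _ rfl
    · rw [hB]; exact (Dvd.intro _ rfl : (p : ℤ) ^ 3 ∣ (p : ℤ) ^ 3 * b).neg_right
  right
  have hβ : β = 2 := by omega
  subst hα
  subst hβ
  have hE1 : E = 1 := by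
    have hE0 : E ≠ 0 := fun h0 => hE (by simp [h0])
    have : E * p ^ 4 ≤ 1 * p ^ 4 := by simpa using hle
    have := Nat.le_of_mul_le_mul_right this (by positivity)
    omega
  subst hE1
  rw [mul_one] at hab
  have hpZ : (5 : ℤ) ≤ p := by exact_mod_cast hp5
  have hp0 : (p : ℤ) ≠ 0 := by positivity
  have hsqpos : (0 : ℤ) < (p : ℤ) ^ 2 := by positivity
  have e4 : (p : ℤ) ^ 4 = (p : ℤ) ^ 2 * (p : ℤ) ^ 2 := by ring
  have halt : (a : ℤ) < (p : ℤ) ^ 2 := by
    have h3 := h.Alt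
    rw [hA, e4] at h3
    exact lt_of_mul_lt_mul_left h3 hsqpos.le
  have hblt : (b : ℤ) < (p : ℤ) ^ 2 := by
    have h3 := h.Blt
    rw [hB, e4, neg_neg] at h3
    exact lt_of_mul_lt_mul_left h3 hsqpos.le
  have halt' : a < p ^ 2 := by exact_mod_cast halt
  have hblt' : b < p ^ 2 := by exact_mod_cast hblt
  have e1 := h.e1
  rw [hA, hB] at e1
  have e2 := h.e2
  rw [hA, hB] at e2
  have e1' : (NA : ℤ) * a * (a + b) = p ^ 2 * (p ^ 2 + b) := by
    have h3 : (p : ℤ) ^ 4 * ((NA : ℤ) * a * (a + b)) = (p : ℤ) ^ 4 * (p ^ 2 * (p ^ 2 + b)) := by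
      linear_combination e1
    exact mul_left_cancel₀ (pow_ne_zero 4 hp0) h3
  have e2' : (NB : ℤ) * b * (a + b) = p ^ 2 * (p ^ 2 - a) := by
    have h3 : (p : ℤ) ^ 4 * ((NB : ℤ) * b * (a + b)) = (p : ℤ) ^ 4 * (p ^ 2 * (p ^ 2 - a)) := by
      linear_combination e2
    exact mul_left_cancel₀ (pow_ne_zero 4 hp0) h3
  have hV : (V1 : ℤ) = p ^ 2 * (a - b) + a * b := by
    have m3 := h.m3
    rw [hA, hB] at m3
    have h3 : (p : ℤ) ^ 4 * V1 = (p : ℤ) ^ 4 * (p ^ 2 * (a - b) + a * b) := by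
      linear_combination m3
    exact mul_left_cancel₀ (pow_ne_zero 4 hp0) h3
  have hV1 : (p : ℤ) ≤ V1 := by exact_mod_cast h.V1p
  have hs : s = 1 ∨ s = 2 := by
    have h3 : p ^ s < p ^ 3 := by
      rw [← hab]
      have : p ^ 2 * 2 ≤ p ^ 2 * p := Nat.mul_le_mul_left _ (by omega)
      have e3 : p ^ 3 = p ^ 2 * p := by ring
      omega
    have h4 := (Nat.pow_lt_pow_iff_right hp.one_lt).1 h3
    have h5 : s ≠ 0 := by
      rintro rfl
      rw [pow_zero] at hab
      omega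
    omega
  have hcop : Nat.Coprime a p := ((Nat.Prime.coprime_iff_not_dvd hp).2 ha).symm
  have hsq : 5 * p ≤ p ^ 2 := by nlinarith
  have hsqZ : (25 : ℤ) ≤ (p : ℤ) ^ 2 := by nlinarith
  rcases hs with rfl | rfl
  · -- s = 1
    rw [pow_one] at hab
    have habZ : (a : ℤ) + b = p := by exact_mod_cast hab
    have hbZ : (b : ℤ) = p - a := by linarith
    have e1'' : (NA : ℤ) * a = p * (p ^ 2 + b) := by
      rw [habZ] at e1'
      have h3 : (p : ℤ) * ((NA : ℤ) * a) = p * (p * (p ^ 2 + b)) := by linear_combination e1'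
      exact mul_left_cancel₀ hp0 h3
    have e2'' : (NB : ℤ) * b = p * (p ^ 2 - a) := by
      rw [habZ] at e2'
      have h3 : (p : ℤ) * ((NB : ℤ) * b) = p * (p * (p ^ 2 - a)) := by linear_combination e2'
      exact mul_left_cancel₀ hp0 h3
    have hd1 : a ∣ p ^ 2 * (p + 1) := by
      have : (a : ℤ) ∣ ((p ^ 2 * (p + 1) : ℕ) : ℤ) := ⟨NA + p, by
        push_cast
        rw [hbZ] at e1''
        linear_combination -e1''⟩
      exact_mod_cast this
    have hd2 : a ∣ p + 1 := (Nat.Coprime.pow_right 2 hcop).dvd_of_dvd_mul_left hd1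
    have hagt : b < a := by
      by_contra hcon
      push Not at hcon
      have hne : a ≠ b := by
        intro he
        have : p = 2 * a := by omega
        have h2 : 2 ∣ p := ⟨a, this⟩
        have := (Nat.prime_dvd_prime_iff_eq Nat.prime_two hp).1 h2
        omega
      have hlt : (a : ℤ) + 1 ≤ b := by exact_mod_cast (by omega : a + 1 ≤ b)
      have h3 : (p : ℤ) ^ 2 * (a - b) ≤ - (p : ℤ) ^ 2 := by nlinarith
      have h4 : 4 * ((a : ℤ) * b) ≤ (p : ℤ) ^ 2 := by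
        rw [← habZ]; nlinarith [sq_nonneg ((a : ℤ) - b)]
      nlinarith
    obtain ⟨k, hk⟩ := hd2
    have hk2 : k = 2 := by
      have h3 : k ≠ 0 := by rintro rfl; omega
      have h4 : k ≠ 1 := by rintro rfl; omega
      by_contra hk2
      have h5 : 3 ≤ k := by omega
      have h6 : a * 3 ≤ a * k := Nat.mul_le_mul_left _ h5
      omega
    subst hk2
    have ha2 : 2 * (a : ℤ) = p + 1 := by
      have : 2 * a = p + 1 := by omega
      exact_mod_cast this
    have hb2 : 2 * (b : ℤ) = p - 1 := by linarith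
    refine ⟨?_, ?_, ?_⟩
    · rw [hA]; linear_combination (p : ℤ) ^ 2 * ha2
    · rw [hB]; linear_combination -(p : ℤ) ^ 2 * hb2
    · have hNA : (NA : ℤ) = p * (2 * p - 1) := by
        have h3 : ((p : ℤ) + 1) * NA = (p + 1) * (p * (2 * p - 1)) := by
          linear_combination 2 * e1'' - NA * ha2 + p * hb2
        exact mul_left_cancel₀ (by positivity) h3
      have hNB : (NB : ℤ) = p * (2 * p + 1) := by
        have h3 : ((p : ℤ) - 1) * NB = (p - 1) * (p * (2 * p + 1)) := by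
          linear_combination 2 * e2'' - NB * hb2 - p * ha2
        exact mul_left_cancel₀ (by linarith) h3
      have : (NA : ℤ) + NB = 4 * p ^ 2 := by rw [hNA, hNB]; ring
      exact_mod_cast this
  · -- s = 2
    exfalso
    have habZ : (a : ℤ) + b = p ^ 2 := by exact_mod_cast hab
    have hbZ : (b : ℤ) = p ^ 2 - a := by linarith
    have e1'' : (NA : ℤ) * a = p ^ 2 + b := by
      rw [habZ] at e1'
      have h3 : (p : ℤ) ^ 2 * ((NA : ℤ) * a) = p ^ 2 * (p ^ 2 + b) := by linear_combination e1'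
      exact mul_left_cancel₀ hsqpos.ne' h3
    have hdvd : a ∣ p ^ 2 * 2 := by
      have : (a : ℤ) ∣ ((p ^ 2 * 2 : ℕ) : ℤ) := ⟨NA + 1, by
        push_cast
        rw [hbZ] at e1''
        linear_combination -e1''⟩
      exact_mod_cast this
    have hd2 : a ∣ 2 := (Nat.Coprime.pow_right 2 hcop).dvd_of_dvd_mul_left hdvd
    have ha2 : a ≤ 2 := Nat.le_of_dvd (by norm_num) hd2
    rw [hV, hbZ] at hV1
    interval_cases a
    · push_cast at hV1
      nlinarith
    · push_cast at hV1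
      nlinarith

end Pool.Agent.helper75.MS
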