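import Pool.Agent.helper31.MS.M4

/-! # MS project, module M4d: arithmetic of the values `0, A, B` for `n = 6` -/

namespace Pool.Agent.helper75.MS

/-- M4d -/
theorem Vals.six {p : ℕ} {A B : ℤ} {NA NB V1 : ℕ} (h : Vals p 6 A B NA NB V1) :
    ((p : ℤ) ^ 4 ∣ A ∧ (p : ℤ) ^ 4 ∣ B) ∨
    ∃ a b : ℤ, A = (p : ℤ) ^ 3 * a ∧ B = -(p : ℤ) ^ 3 * b ∧ 0 < b ∧ b < a ∧ a + b = p ∧
      a ∣ (p : ℤ) ^ 3 + b := by
  obtain ⟨α, β, a, b, hA, hB, ha0, hb0, ha, hb, hαn, hβn, hc⟩ := h.core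
  have hp := h.prime
  have hp3 := h.p3
  have hp5 : 5 ≤ p := by
    have h4 : p ≠ 4 := by rintro rfl; exact absurd hp (by norm_num)
    omega
  by_cases h44 : 4 ≤ α ∧ 4 ≤ β
  · left
    constructor
    · rw [hA]; exact Dvd.dvd.mul_right (pow_dvd_pow _ h44.1) _
    · rw [hB]; exact (Dvd.dvd.mul_right (pow_dvd_pow _ h44.2) _).neg_right
  rcases hc with ⟨h1, h2⟩ | ⟨h1, h2⟩ | ⟨h1, h2, s, E, hab, hE, hle⟩
  · omega
  · omega
  right
  have hα : α = 3 := by omega
  have hβ : β = 3 := by omega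
  subst hα
  subst hβ
  have hE1 : E = 1 := by
    have hE0 : E ≠ 0 := fun h0 => hE (by simp [h0])
    have : E * p ^ 6 ≤ 1 * p ^ 6 := by simpa using hle
    have := Nat.le_of_mul_le_mul_right this (by positivity)
    omega
  subst hE1
  rw [mul_one] at hab
  have hpZ : (5 : ℤ) ≤ p := by exact_mod_cast hp5
  have hp0 : (p : ℤ) ≠ 0 := by positivity
  have hcbpos : (0 : ℤ) < (p : ℤ) ^ 3 := by positivity
  have e6 : (p : ℤ) ^ 6 = (p : ℤ) ^ 3 * (p : ℤ) ^ 3 := by ring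
  have halt : (a : ℤ) < (p : ℤ) ^ 3 := by
    have h3 := h.Alt
    rw [hA, e6] at h3
    exact lt_of_mul_lt_mul_left h3 hcbpos.le
  have hblt : (b : ℤ) < (p : ℤ) ^ 3 := by
    have h3 := h.Blt
    rw [hB, e6, neg_neg] at h3
    exact lt_of_mul_lt_mul_left h3 hcbpos.le
  have halt' : a < p ^ 3 := by exact_mod_cast halt
  have hblt' : b < p ^ 3 := by exact_mod_cast hblt
  have e1 := h.e1
  rw [hA, hB] at e1
  have e2 := h.e2
  rw [hA, hB] at e2
  have e1' : (NA : ℤ) * a * (a + b) = p ^ 3 * (p ^ 3 + b) := by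
    have h3 : (p : ℤ) ^ 6 * ((NA : ℤ) * a * (a + b)) = (p : ℤ) ^ 6 * (p ^ 3 * (p ^ 3 + b)) := by
      linear_combination e1
    exact mul_left_cancel₀ (pow_ne_zero 6 hp0) h3
  have e2' : (NB : ℤ) * b * (a + b) = p ^ 3 * (p ^ 3 - a) := by
    have h3 : (p : ℤ) ^ 6 * ((NB : ℤ) * b * (a + b)) = (p : ℤ) ^ 6 * (p ^ 3 * (p ^ 3 - a)) := by
      linear_combination e2
    exact mul_left_cancel₀ (pow_ne_zero 6 hp0) h3
  have hV : (V1 : ℤ) = p ^ 3 * (a - b) + a * b := by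
    have m3 := h.m3
    rw [hA, hB] at m3
    have h3 : (p : ℤ) ^ 6 * V1 = (p : ℤ) ^ 6 * (p ^ 3 * (a - b) + a * b) := by
      linear_combination m3
    exact mul_left_cancel₀ (pow_ne_zero 6 hp0) h3
  have hV1 : (p : ℤ) ≤ V1 := by exact_mod_cast h.V1p
  have hs : s = 1 ∨ s = 2 ∨ s = 3 := by
    have h3 : p ^ s < p ^ 4 := by
      rw [← hab]
      have : p ^ 3 * 2 ≤ p ^ 3 * p := Nat.mul_le_mul_left _ (by omega)
      have e3 : p ^ 4 = p ^ 3 * p := by ring
      omega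
    have h4 := (Nat.pow_lt_pow_iff_right hp.one_lt).1 h3
    have h5 : s ≠ 0 := by
      rintro rfl
      rw [pow_zero] at hab
      omega
    omega
  have hcop : Nat.Coprime a p := ((Nat.Prime.coprime_iff_not_dvd hp).2 ha).symm
  have hcopb : Nat.Coprime b p := ((Nat.Prime.coprime_iff_not_dvd hp).2 hb).symm
  have hcb : (25 : ℤ) * p ≤ (p : ℤ) ^ 3 := by
    have h1 : (25 : ℤ) ≤ (p : ℤ) ^ 2 := by nlinarith
    have h2 : (p : ℤ) ^ 3 = (p : ℤ) ^ 2 * p := by ring
    rw [h2]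
    exact mul_le_mul_of_nonneg_right h1 (by linarith)
  rcases hs with rfl | rfl | rfl
  · -- s = 1
    rw [pow_one] at hab
    have habZ : (a : ℤ) + b = p := by exact_mod_cast hab
    have hagt : b < a := by
      by_contra hcon
      push Not at hcon
      have hne : a ≠ b := by
        intro he
        have : p = 2 * a := by omega
        have h2 : 2 ∣ p := ⟨a, this⟩
        have := (Nat.prime_dvd_prime_iff_eq Nat.prime_two hp).1 h2
        omega
      have hlt : (a : ℤ) + 1 ≤ b := by exact_mod_cast (by omega : a + 1 ≤ b)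
      have h3 : (p : ℤ) ^ 3 * (a - b) ≤ - (p : ℤ) ^ 3 := by
        have : (p : ℤ) ^ 3 * (a - b) ≤ (p : ℤ) ^ 3 * (-1) :=
          mul_le_mul_of_nonneg_left (by linarith) hcbpos.le
        linarith
      have h4 : (a : ℤ) * b ≤ (p : ℤ) ^ 2 := by
        rw [← habZ]; nlinarith [sq_nonneg ((a : ℤ) - b), Int.natCast_nonneg a, Int.natCast_nonneg b]
      have h5 : (p : ℤ) ^ 2 ≤ (p : ℤ) ^ 3 := pow_le_pow_right₀ (by linarith) (by norm_num)
      linarith
    have e1'' : (NA : ℤ) * a = p ^ 2 * (p ^ 3 + b) := by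
      rw [habZ] at e1'
      have h3 : (p : ℤ) * ((NA : ℤ) * a) = p * (p ^ 2 * (p ^ 3 + b)) := by linear_combination e1'
      exact mul_left_cancel₀ hp0 h3
    have hd1 : a ∣ p ^ 2 * (p ^ 3 + b) := by
      have : (a : ℤ) ∣ ((p ^ 2 * (p ^ 3 + b) : ℕ) : ℤ) := ⟨NA, by
        push_cast
        linear_combination -e1''⟩
      exact_mod_cast this
    have hd2 : a ∣ p ^ 3 + b := (Nat.Coprime.pow_right 2 hcop).dvd_of_dvd_mul_left hd1
    refine ⟨a, b, hA, ?_, by exact_mod_cast hb0, by exact_mod_cast hagt, habZ, by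
      exact_mod_cast hd2⟩
    rw [hB]; ring
  · -- s = 2
    exfalso
    have habZ : (a : ℤ) + b = p ^ 2 := by exact_mod_cast hab
    have e1'' : (NA : ℤ) * a = p * (p ^ 3 + b) := by
      rw [habZ] at e1'
      have h3 : (p : ℤ) ^ 2 * ((NA : ℤ) * a) = p ^ 2 * (p * (p ^ 3 + b)) := by
        linear_combination e1'
      exact mul_left_cancel₀ (pow_ne_zero 2 hp0) h3
    have e2'' : (NB : ℤ) * b = p * (p ^ 3 - a) := by
      rw [habZ] at e2'
      have h3 : (p : ℤ) ^ 2 * ((NB : ℤ) * b) = p ^ 2 * (p * (p ^ 3 - a)) := by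
        linear_combination e2'
      exact mul_left_cancel₀ (pow_ne_zero 2 hp0) h3
    have hd1 : a ∣ p ^ 3 * (p + 1) := by
      have : (a : ℤ) ∣ ((p ^ 3 * (p + 1) : ℕ) : ℤ) := ⟨NA + p, by
        push_cast
        linear_combination -e1'' - p * habZ⟩
      exact_mod_cast this
    have hd2 : a ∣ p + 1 := (Nat.Coprime.pow_right 3 hcop).dvd_of_dvd_mul_left hd1
    have hd3 : b ∣ p ^ 3 * (p - 1) := by
      have : (b : ℤ) ∣ ((p ^ 3 * (p - 1) : ℕ) : ℤ) := ⟨NB - p, by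
        push_cast [Nat.cast_sub hp.one_lt.le]
        linear_combination -e2'' + p * habZ⟩
      exact_mod_cast this
    have hd4 : b ∣ p - 1 := (Nat.Coprime.pow_right 3 hcopb).dvd_of_dvd_mul_left hd3
    have h5 := Nat.le_of_dvd (by omega) hd2
    have h6 := Nat.le_of_dvd (by omega) hd4
    have h7 : 5 * p ≤ p ^ 2 := by nlinarith
    omega
  · -- s = 3
    exfalso
    have habZ : (a : ℤ) + b = p ^ 3 := by exact_mod_cast hab
    have hbZ : (b : ℤ) = p ^ 3 - a := by linarith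
    have e1'' : (NA : ℤ) * a = p ^ 3 + b := by
      rw [habZ] at e1'
      exact mul_left_cancel₀ hcbpos.ne' (by linear_combination e1')
    have hdvd : a ∣ p ^ 3 * 2 := by
      have : (a : ℤ) ∣ ((p ^ 3 * 2 : ℕ) : ℤ) := ⟨NA + 1, by
        push_cast
        rw [hbZ] at e1''
        linear_combination -e1''⟩
      exact_mod_cast this
    have hd2 : a ∣ 2 := (Nat.Coprime.pow_right 3 hcop).dvd_of_dvd_mul_left hdvd
    have ha2 : a ≤ 2 := Nat.le_of_dvd (by norm_num) hd2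
    rw [hV, hbZ] at hV1
    have h125 : (125 : ℤ) ≤ (p : ℤ) ^ 3 := by nlinarith
    interval_cases a
    · push_cast at hV1
      nlinarith
    · push_cast at hV1
      nlinarith

end Pool.Agent.helper75.MS
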