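import Pool.Agent.helper75.MS.Defs

/-! # MS project, module M5: the exceptional values for `n = 4` do not occur -/

namespace Pool.Agent.helper75.MS

open Finset

/-- the number of solutions `c` of `f + c ⬝ u = e` does not depend on `e` if `u ≠ 0` -/
theorem m5_indep {p : ℕ} [Fact p.Prime] (u : Fin 2 → ZMod p) (hu : u ≠ 0) (e e' : ZMod p) :
    (univ.filter fun c : Fin 2 → ZMod p => ∑ i, c i * u i = e).card =
    (univ.filter fun c : Fin 2 → ZMod p => ∑ i, c i * u i = e').card := by
  obtain ⟨j, hj⟩ : ∃ j, u j ≠ 0 := by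
    by_contra hcon
    push Not at hcon
    exact hu (funext hcon)
  have hs : ∀ t : ZMod p, ∑ i, (Pi.single j (t * (u j)⁻¹) : Fin 2 → ZMod p) i * u i = t := by
    intro t
    rw [Finset.sum_eq_single j]
    · rw [Pi.single_eq_same]; field_simp
    · intro i _ hij
      rw [Pi.single_eq_of_ne hij, zero_mul]
    · simp
  refine Finset.card_bij' (fun c _ => c + Pi.single j ((e' - e) * (u j)⁻¹))
    (fun c _ => c + Pi.single j ((e - e') * (u j)⁻¹)) ?_ ?_ ?_ ?_
  · intro c hc
    simp only [mem_filter, mem_univ, true_and] at hc ⊢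
    simp only [Pi.add_apply, add_mul, Finset.sum_add_distrib, hc, hs]
    ring
  · intro c hc
    simp only [mem_filter, mem_univ, true_and] at hc ⊢
    simp only [Pi.add_apply, add_mul, Finset.sum_add_distrib, hc, hs]
    ring
  · intro c _
    simp only [add_assoc, ← Pi.single_add, ← add_mul]
    simp
  · intro c _
    simp only [add_assoc, ← Pi.single_add, ← add_mul]
    simp

section

variable {p : ℕ} [Fact p.Prime] {K : Type} [Field K] [Fintype K] [DecidableEq K]
  [Algebra (ZMod p) K]

/-- `T` is homogeneous over the prime field -/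
theorem m5_T_smul {d : ℕ} (hd1 : d ≡ 1 [MOD p - 1]) (a x : K) (t : ZMod p) (ht : t ≠ 0) :
    T p d a (t • x) = t * T p d a x := by
  have hp : p.Prime := Fact.out
  have htd : t ^ d = t := by
    have h1 : (Units.mk0 t ht) ^ d = (Units.mk0 t ht) ^ 1 := by
      have h2 : orderOf (Units.mk0 t ht) ∣ p - 1 := by
        apply orderOf_dvd_of_pow_eq_one
        ext
        rw [Units.val_pow_eq_pow_val, Units.val_mk0, Units.val_one]
        exact ZMod.pow_card_sub_one_eq_one ht
      exact pow_eq_pow_iff_modEq.2 (hd1.of_dvd h2)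
    have h3 := congrArg (Units.val) h1
    rw [Units.val_pow_eq_pow_val, Units.val_mk0, pow_one, Units.val_mk0] at h3
    exact h3
  unfold T
  rw [smul_pow, htd, mul_smul_comm, ← smul_sub, map_smul, smul_eq_mul]

/-- counting points of a subspace: `p` divides `n0 - n1` -/
theorem m5_sub {d : ℕ} (hd1 : d ≡ 1 [MOD p - 1]) (a : K) (P : Submodule (ZMod p) K)
    (hP : 0 < Module.finrank (ZMod p) P) [DecidablePred (· ∈ P)] :
    (p : ℤ) ∣ ((univ.filter fun y : K => y ∈ P ∧ T p d a y = 0).card : ℤ) -
      ((univ.filter fun y : K => y ∈ P ∧ T p d a y = 1).card : ℤ) := by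
  have hp : p.Prime := Fact.out
  have h1 : ∀ t : ZMod p, t ≠ 0 → (univ.filter fun y : K => y ∈ P ∧ T p d a y = t).card =
      (univ.filter fun y : K => y ∈ P ∧ T p d a y = 1).card := by
    intro t ht
    refine Finset.card_bij' (fun y _ => t⁻¹ • y) (fun y _ => t • y) ?_ ?_ ?_ ?_
    · intro y hy
      simp only [mem_filter, mem_univ, true_and] at hy ⊢
      refine ⟨P.smul_mem _ hy.1, ?_⟩
      rw [m5_T_smul hd1 a y _ (inv_ne_zero ht), hy.2, inv_mul_cancel₀ ht]
    · intro y hy
      simp only [mem_filter, mem_univ, true_and] at hy ⊢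
      refine ⟨P.smul_mem _ hy.1, ?_⟩
      rw [m5_T_smul hd1 a y _ ht, hy.2, mul_one]
    · intro y _
      exact smul_inv_smul₀ ht y
    · intro y _
      exact inv_smul_smul₀ ht y
  have h2 : (univ.filter fun y : K => y ∈ P).card =
      ∑ t : ZMod p, (univ.filter fun y : K => y ∈ P ∧ T p d a y = t).card := by
    rw [Finset.card_eq_sum_card_fiberwise (f := fun y => T p d a y) (t := univ)
      (fun _ _ => Finset.mem_coe.2 (mem_univ _))]
    refine Finset.sum_congr rfl fun t _ => ?_
    rw [Finset.filter_filter]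
  have h3 : ∑ t : ZMod p, (univ.filter fun y : K => y ∈ P ∧ T p d a y = t).card =
      (univ.filter fun y : K => y ∈ P ∧ T p d a y = 0).card +
        (p - 1) * (univ.filter fun y : K => y ∈ P ∧ T p d a y = 1).card := by
    rw [← Finset.add_sum_erase univ _ (mem_univ (0 : ZMod p))]
    congr 1
    rw [Finset.sum_congr rfl (fun t ht => h1 t (Finset.ne_of_mem_erase ht)), Finset.sum_const,
      Finset.card_erase_of_mem (mem_univ _), Finset.card_univ, ZMod.card, smul_eq_mul]
  have h4 : p ∣ (univ.filter fun y : K => y ∈ P).card := by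
    have h5 : (univ.filter fun y : K => y ∈ P).card = p ^ Module.finrank (ZMod p) P := by
      have h6 := Module.card_eq_pow_finrank (K := ZMod p) (V := P)
      rw [ZMod.card] at h6
      rw [← h6, Fintype.card_subtype]
    rw [h5]
    exact dvd_pow_self p hP.ne'
  obtain ⟨k, hk⟩ := h4
  rw [h2, h3] at hk
  have hk' : ((univ.filter fun y : K => y ∈ P ∧ T p d a y = 0).card : ℤ) +
      ((p : ℤ) - 1) * ((univ.filter fun y : K => y ∈ P ∧ T p d a y = 1).card : ℤ) = p * k := by
    have h1p : 1 ≤ p := hp.one_lt.le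
    have := congrArg (Nat.cast : ℕ → ℤ) hk
    push_cast [Nat.cast_sub h1p] at this
    exact this
  exact ⟨k - ((univ.filter fun y : K => y ∈ P ∧ T p d a y = 1).card : ℤ), by
    linear_combination hk'⟩

/-- the sum of the Weil sum over a two-dimensional flat -/
theorem m5_flat {d : ℕ} (hd1 : d ≡ 1 [MOD p - 1]) (hq : Fintype.card K = p ^ 4)
    (b : Fin 2 → K) (x0 v : K) :
    (p : ℤ) ^ 3 ∣ ∑ c : Fin 2 → ZMod p, w p d (x0 + v * ∑ i, c i • b i) := by
  classical
  have hp : p.Prime := Fact.out
  -- the linear map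
  let φ : K →ₗ[ZMod p] (Fin 2 → ZMod p) :=
    LinearMap.pi fun i => (Algebra.trace (ZMod p) K).comp (LinearMap.mulLeft (ZMod p) (v * b i))
  have hφ : ∀ y i, φ y i = Algebra.trace (ZMod p) K (v * b i * y) := fun y i => rfl
  have hT : ∀ (c : Fin 2 → ZMod p) (y : K), T p d (x0 + v * ∑ i, c i • b i) y =
      T p d x0 y + ∑ i, c i * φ y i := by
    intro c y
    unfold T
    simp only [hφ]
    have : (x0 + v * ∑ i, c i • b i) * y - y ^ d = (x0 * y - y ^ d) + ∑ i, c i • (v * b i * y) := by
      rw [Fin.sum_univ_two, Fin.sum_univ_two, mul_add, mul_smul_comm, mul_smul_comm, add_mul,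
        add_mul, smul_mul_assoc, smul_mul_assoc]
      ring
    rw [this, map_add, map_sum]
    simp only [map_smul, smul_eq_mul]
  let P : Submodule (ZMod p) K := LinearMap.ker φ
  have hPmem : ∀ y, y ∈ P ↔ φ y = 0 := fun y => LinearMap.mem_ker
  have hfin : Module.finrank (ZMod p) K = 4 := by
    have h1 := Module.card_eq_pow_finrank (K := ZMod p) (V := K)
    rw [ZMod.card, hq] at h1
    exact (Nat.pow_right_injective hp.two_le h1).symm
  have hP : 0 < Module.finrank (ZMod p) P := by
    have h1 := LinearMap.finrank_range_add_finrank_ker φ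
    have h2 : Module.finrank (ZMod p) (LinearMap.range φ) ≤ 2 := by
      have := Submodule.finrank_le (LinearMap.range φ)
      simpa using this
    have h3 : Module.finrank (ZMod p) (LinearMap.ker φ) = Module.finrank (ZMod p) P := rfl
    omega
  have hcnt : ∀ e : ZMod p, ∑ c : Fin 2 → ZMod p, (cnt p d (x0 + v * ∑ i, c i • b i) e : ℤ) =
      ∑ y : K, ((univ.filter fun c : Fin 2 → ZMod p =>
        T p d x0 y + ∑ i, c i * φ y i = e).card : ℤ) := by
    intro e
    unfold cnt
    simp only [Finset.card_filter, Nat.cast_sum]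
    rw [Finset.sum_comm]
    refine Finset.sum_congr rfl fun y _ => Finset.sum_congr rfl fun c _ => ?_
    rw [hT]
  have hsum : ∑ c : Fin 2 → ZMod p, w p d (x0 + v * ∑ i, c i • b i) =
      (p : ℤ) ^ 2 * (((univ.filter fun y : K => y ∈ P ∧ T p d x0 y = 0).card : ℤ) -
      ((univ.filter fun y : K => y ∈ P ∧ T p d x0 y = 1).card : ℤ)) := by
    unfold w
    rw [Finset.sum_sub_distrib, hcnt, hcnt, ← Finset.sum_sub_distrib]
    have hterm : ∀ y : K, ((univ.filter fun c : Fin 2 → ZMod p =>
        T p d x0 y + ∑ i, c i * φ y i = 0).card : ℤ) - ((univ.filter fun c : Fin 2 → ZMod p =>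
        T p d x0 y + ∑ i, c i * φ y i = 1).card : ℤ) =
        (p : ℤ) ^ 2 * ((if y ∈ P ∧ T p d x0 y = 0 then 1 else 0) -
          (if y ∈ P ∧ T p d x0 y = 1 then 1 else 0)) := by
      intro y
      by_cases hy : y ∈ P
      · have hy0 := (hPmem y).1 hy
        have : ∀ e : ZMod p, ((univ.filter fun c : Fin 2 → ZMod p =>
            T p d x0 y + ∑ i, c i * φ y i = e).card : ℤ) =
            (p : ℤ) ^ 2 * (if y ∈ P ∧ T p d x0 y = e then 1 else 0) := by
          intro e
          simp only [hy0, Pi.zero_apply, mul_zero, Finset.sum_const_zero, add_zero, hy, true_and]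
          by_cases he : T p d x0 y = e
          · simp only [he, Finset.filter_true, if_true, mul_one, Finset.card_univ,
              Fintype.card_fun, ZMod.card, Fintype.card_fin]
            push_cast
            rfl
          · simp [he]
        rw [this, this]; ring
      · have h1 : φ y ≠ 0 := fun h => hy ((hPmem y).2 h)
        have h2 := m5_indep (φ y) h1 (0 - T p d x0 y) (1 - T p d x0 y)
        have h3 : ∀ e : ZMod p, (univ.filter fun c : Fin 2 → ZMod p =>
            T p d x0 y + ∑ i, c i * φ y i = e) = (univ.filter fun c : Fin 2 → ZMod p =>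
            ∑ i, c i * φ y i = e - T p d x0 y) := by
          intro e
          refine Finset.filter_congr fun c _ => ?_
          rw [eq_sub_iff_add_eq, add_comm]
        rw [h3, h3, h2]
        simp [hy]
    rw [Finset.sum_congr rfl (fun y _ => hterm y), ← Finset.mul_sum, Finset.sum_sub_distrib]
    congr 2
    · rw [Finset.card_filter]; push_cast; rfl
    · rw [Finset.card_filter]; push_cast; rfl
  rw [hsum, pow_succ]
  exact mul_dvd_mul_left _ (m5_sub hd1 x0 P hP)

end

/-! ### M5 : the exceptional values for `n = 4` do not occur -/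
theorem flats {p d : ℕ} [Fact p.Prime] {K : Type} [Field K] [Fintype K] [DecidableEq K]
    [Algebra (ZMod p) K] (hp : 3 < p) (hq : Fintype.card K = p ^ 4)
    (hd : Nat.Coprime d (p ^ 4 - 1)) (hd1 : d ≡ 1 [MOD p - 1])
    (A B : ℤ) (hA : 2 * A = (p : ℤ) ^ 2 * (p + 1)) (hB : 2 * B = - (p : ℤ) ^ 2 * (p - 1))
    (hv : ∀ a : K, w p d a = 0 ∨ w p d a = A ∨ w p d a = B)
    (hS : (univ.filter fun a : K => w p d a ≠ 0).card = 4 * p ^ 2) : False := by
  classical
  have hpp : p.Prime := Fact.out
  have hp5 : 5 ≤ p := by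
    have h4 : p ≠ 4 := by rintro rfl; exact absurd hpp (by norm_num)
    omega
  have hp0 : (p : ℤ) ≠ 0 := by have := hpp.pos; positivity
  set S : Finset K := univ.filter fun a : K => w p d a ≠ 0 with hSdef
  -- a two-dimensional subspace
  have hfin : Module.finrank (ZMod p) K = 4 := by
    have h1 := Module.card_eq_pow_finrank (K := ZMod p) (V := K)
    rw [ZMod.card, hq] at h1
    exact (Nat.pow_right_injective hpp.two_le h1).symm
  let bas : Module.Basis (Fin 4) (ZMod p) K := Module.finBasisOfFinrankEq (ZMod p) K hfin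
  let b : Fin 2 → K := fun i => bas (Fin.castLE (by norm_num) i)
  have hb : LinearIndependent (ZMod p) b :=
    bas.linearIndependent.comp _ (Fin.castLE_injective (by norm_num))
  let g : (Fin 2 → ZMod p) → K := fun c => ∑ i, c i • b i
  have hg0 : g 0 = 0 := by simp [g]
  have hg : ∀ c, g c = 0 → c = 0 := by
    intro c hc
    exact funext (Fintype.linearIndependent_iff.1 hb c hc)
  -- divisibility of the number of points of `S` on a flat
  have hdiv : ∀ x0 v : K, p ∣ (univ.filter fun c : Fin 2 → ZMod p => x0 + v * g c ∈ S).card := by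
    intro x0 v
    have h1 := m5_flat (p := p) hd1 hq b x0 v
    have hmem : ∀ a : K, (p : ℤ) ^ 3 ∣ 2 * w p d a - (p : ℤ) ^ 2 * (if a ∈ S then 1 else 0) := by
      intro a
      rcases hv a with h0 | h0 | h0
      · have : a ∉ S := by simp [hSdef, h0]
        simp [this, h0]
      · have hA0 : A ≠ 0 := by
          intro h
          rw [h, mul_zero] at hA
          have : (p : ℤ) ^ 2 * (p + 1) > 0 := by have := hpp.pos; positivity
          linarith
        have : a ∈ S := by simp [hSdef, h0, hA0]
        rw [if_pos this, h0, hA]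
        exact ⟨1, by ring⟩
      · have hB0 : B ≠ 0 := by
          intro h
          rw [h, mul_zero] at hB
          have h5 : (5 : ℤ) ≤ p := by exact_mod_cast hp5
          have : (p : ℤ) ^ 2 * (p - 1) > 0 := by
            apply mul_pos
            · positivity
            · linarith
          linarith
        have : a ∈ S := by simp [hSdef, h0, hB0]
        rw [if_pos this, h0, hB]
        exact ⟨-1, by ring⟩
    have h2 : (p : ℤ) ^ 3 ∣ ∑ c : Fin 2 → ZMod p, (2 * w p d (x0 + v * g c) -
        (p : ℤ) ^ 2 * (if x0 + v * g c ∈ S then 1 else 0)) :=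
      Finset.dvd_sum fun c _ => hmem _
    rw [Finset.sum_sub_distrib, ← Finset.mul_sum, ← Finset.mul_sum] at h2
    have h3 : (p : ℤ) ^ 3 ∣ (p : ℤ) ^ 2 *
        ∑ c : Fin 2 → ZMod p, (if x0 + v * g c ∈ S then (1 : ℤ) else 0) := by
      have h4 : (p : ℤ) ^ 3 ∣ 2 * ∑ c : Fin 2 → ZMod p, w p d (x0 + v * g c) :=
        Dvd.dvd.mul_left h1 2
      exact (dvd_sub_right h4).1 h2
    rw [pow_succ] at h3
    have h5 := (mul_dvd_mul_iff_left (pow_ne_zero 2 hp0)).1 h3
    have h6 : ∑ c : Fin 2 → ZMod p, (if x0 + v * g c ∈ S then (1 : ℤ) else 0) =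
        ((univ.filter fun c : Fin 2 → ZMod p => x0 + v * g c ∈ S).card : ℤ) := by
      rw [Finset.card_filter]; push_cast; rfl
    rw [h6] at h5
    exact_mod_cast h5
  -- a point of `S`
  obtain ⟨s, hs⟩ : S.Nonempty := by
    rw [← Finset.card_pos, hS]
    have := hpp.pos
    positivity
  have hge : ∀ v : K, p - 1 ≤
      ((univ.erase (0 : Fin 2 → ZMod p)).filter fun c => s + v * g c ∈ S).card := by
    intro v
    have h1 : (univ.erase (0 : Fin 2 → ZMod p)).filter (fun c => s + v * g c ∈ S) =
        (univ.filter fun c : Fin 2 → ZMod p => s + v * g c ∈ S).erase 0 := by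
      rw [Finset.filter_erase]
    have h0 : (0 : Fin 2 → ZMod p) ∈ univ.filter fun c : Fin 2 → ZMod p => s + v * g c ∈ S := by
      simp [hg0, hs]
    rw [h1, Finset.card_erase_of_mem h0]
    have h2 := Nat.le_of_dvd (Finset.card_pos.2 ⟨_, h0⟩) (hdiv s v)
    omega
  have hsum1 : (p ^ 4 - 1) * (p - 1) ≤ ∑ v ∈ univ.erase (0 : K),
      ((univ.erase (0 : Fin 2 → ZMod p)).filter fun c => s + v * g c ∈ S).card := by
    have h1 : ∑ v ∈ univ.erase (0 : K), (p - 1) = (p ^ 4 - 1) * (p - 1) := by
      rw [Finset.sum_const, Finset.card_erase_of_mem (mem_univ _), Finset.card_univ, hq,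
        smul_eq_mul]
    rw [← h1]
    exact Finset.sum_le_sum fun v _ => hge v
  have hsum2 : ∑ v ∈ univ.erase (0 : K),
      ((univ.erase (0 : Fin 2 → ZMod p)).filter fun c => s + v * g c ∈ S).card =
      (p ^ 2 - 1) * (4 * p ^ 2 - 1) := by
    simp only [Finset.card_filter]
    rw [Finset.sum_comm]
    have h1 : ∀ c ∈ univ.erase (0 : Fin 2 → ZMod p),
        ∑ v ∈ univ.erase (0 : K), (if s + v * g c ∈ S then 1 else 0) = 4 * p ^ 2 - 1 := by
      intro c hc
      have hgc : g c ≠ 0 := fun h => Finset.ne_of_mem_erase hc (hg c h)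
      rw [← Finset.card_filter, ← hS, ← Finset.card_erase_of_mem hs]
      refine Finset.card_bij' (fun v _ => s + v * g c) (fun a _ => (a - s) / g c) ?_ ?_ ?_ ?_
      · intro v hv'
        simp only [mem_filter, mem_erase, mem_univ, and_true] at hv' ⊢
        refine ⟨?_, hv'.2⟩
        intro h
        have h2 : v * g c = 0 := by simpa using h
        rcases mul_eq_zero.1 h2 with h3 | h3
        · exact hv'.1 h3
        · exact hgc h3
      · intro a ha
        simp only [mem_filter, mem_erase, mem_univ, and_true] at ha ⊢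
        refine ⟨div_ne_zero (sub_ne_zero.2 ha.1) hgc, ?_⟩
        rw [div_mul_cancel₀ _ hgc, add_sub_cancel]
        exact ha.2
      · intro v _
        simp [hgc]
      · intro a _
        rw [div_mul_cancel₀ _ hgc, add_sub_cancel]
    rw [Finset.sum_congr rfl h1, Finset.sum_const, Finset.card_erase_of_mem (mem_univ _),
      Finset.card_univ, Fintype.card_fun, ZMod.card, Fintype.card_fin, smul_eq_mul]
  rw [hsum2] at hsum1
  have e1 : (p ^ 4 - 1) = (p ^ 2 - 1) * (p ^ 2 + 1) := by
    have h1 : 1 ≤ p ^ 2 := Nat.one_le_pow _ _ hpp.pos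
    have h2 : 1 ≤ p ^ 4 := Nat.one_le_pow _ _ hpp.pos
    zify [h1, h2]
    ring
  rw [e1, mul_assoc] at hsum1
  have h25 : 25 ≤ p ^ 2 := by nlinarith
  have h3 := Nat.le_of_mul_le_mul_left hsum1 (by omega)
  have h4 : (p ^ 2 + 1) * 4 ≤ (p ^ 2 + 1) * (p - 1) := Nat.mul_le_mul_left _ (by omega)
  omega

end Pool.Agent.helper75.MS
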